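import Pool.Agent.X283.BMG.Grp

set_option autoImplicit false

/-!
# The group of order automorphisms of `ℚ ×ₗ ℚ` with bounded support
-/

noncomputable section

namespace Pool.Agent.X283.BMG

/-- the ordered set -/
abbrev II : Type := ℚ ×ₗ ℚ

def fs (x : II) : ℚ := (ofLex x).1

def sd (x : II) : ℚ := (ofLex x).2

theorem II_le {x y : II} : x ≤ y ↔ fs x < fs y ∨ fs x = fs y ∧ sd x ≤ sd y :=
  Prod.Lex.le_iff

theorem II_ext {x y : II} (h1 : fs x = fs y) (h2 : sd x = sd y) : x = y :=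
  Prod.ext h1 h2

instance : Countable II := inferInstanceAs (Countable (ℚ × ℚ))

instance : DenselyOrdered II := by
  refine ⟨fun x y hxy => ?_⟩
  obtain ⟨x1, x2⟩ := x
  obtain ⟨y1, y2⟩ := y
  rcases (Prod.Lex.lt_iff).1 hxy with h | ⟨h, h'⟩
  · refine ⟨toLex (x1, x2 + 1), ?_, ?_⟩
    · exact (Prod.Lex.lt_iff).2 (Or.inr ⟨rfl, by
        show x2 < x2 + 1
        linarith⟩)
    · exact (Prod.Lex.lt_iff).2 (Or.inl h)
  · obtain ⟨z, h1, h2⟩ := exists_between h'
    exact ⟨toLex (x1, z), (Prod.Lex.lt_iff).2 (Or.inr ⟨rfl, h1⟩),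
      (Prod.Lex.lt_iff).2 (Or.inr ⟨h, h2⟩)⟩

instance : NoMinOrder II := by
  refine ⟨fun x => ⟨toLex (fs x - 1, 0), (Prod.Lex.lt_iff).2 (Or.inl ?_)⟩⟩
  show fs x - 1 < fs x
  linarith

instance : NoMaxOrder II := by
  refine ⟨fun x => ⟨toLex (fs x + 1, 0), (Prod.Lex.lt_iff).2 (Or.inl ?_)⟩⟩
  show fs x < fs x + 1
  linarith

instance : Nonempty II := ⟨toLex (0, 0)⟩

/-- acting on the first coordinate -/
def lift1 (e : ℚ ≃o ℚ) : II ≃o II where
  toFun x := toLex (e (fs x), sd x)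
  invFun x := toLex (e.symm (fs x), sd x)
  left_inv x := II_ext (e.symm_apply_apply _) rfl
  right_inv x := II_ext (e.apply_symm_apply _) rfl
  map_rel_iff' := by
    intro x y
    rw [II_le, II_le]
    show e (fs x) < e (fs y) ∨ e (fs x) = e (fs y) ∧ sd x ≤ sd y ↔ _
    rw [e.lt_iff_lt, e.injective.eq_iff]

theorem fs_lift1 (e : ℚ ≃o ℚ) (x : II) : fs (lift1 e x) = e (fs x) := rfl

/-- acting on the copy of `ℚ` over `0` -/
def act0 (γ : ℚ ≃o ℚ) (x : II) : II := toLex (fs x, if fs x = 0 then γ (sd x) else sd x)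

theorem fs_act0 (γ : ℚ ≃o ℚ) (x : II) : fs (act0 γ x) = fs x := rfl

theorem sd_act0 (γ : ℚ ≃o ℚ) (x : II) : sd (act0 γ x) = if fs x = 0 then γ (sd x) else sd x := rfl

def iotaI (γ : ℚ ≃o ℚ) : II ≃o II where
  toFun := act0 γ
  invFun := act0 γ.symm
  left_inv x := II_ext rfl (by
    rw [sd_act0, sd_act0, fs_act0]
    split_ifs <;> simp)
  right_inv x := II_ext rfl (by
    rw [sd_act0, sd_act0, fs_act0]
    split_ifs <;> simp)
  map_rel_iff' := by
    intro x y
    rw [II_le, II_le]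
    show fs x < fs y ∨ fs x = fs y ∧ sd (act0 γ x) ≤ sd (act0 γ y) ↔ _
    rw [sd_act0, sd_act0]
    refine or_congr Iff.rfl (and_congr_right fun h => ?_)
    rw [← h]
    split_ifs
    · exact γ.le_iff_le
    · exact Iff.rfl

/-- bounded support -/
def BB : Subgroup (II ≃o II) where
  carrier := {σ | ∃ M : ℚ, ∀ x : II, M ≤ |fs x| → σ x = x}
  mul_mem' := by
    rintro σ τ ⟨M, hM⟩ ⟨N, hN⟩
    refine ⟨max M N, fun x hx => ?_⟩
    show σ (τ x) = x
    rw [hN x ((le_max_right _ _).trans hx), hM x ((le_max_left _ _).trans hx)]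
  one_mem' := ⟨0, fun _ _ => rfl⟩
  inv_mem' := by
    rintro σ ⟨M, hM⟩
    refine ⟨M, fun x hx => ?_⟩
    have h1 := hM x hx
    calc σ⁻¹ x = σ⁻¹ (σ x) := by rw [h1]
      _ = x := σ.symm_apply_apply x

/-- the homomorphism from `Aut ℚ` -/
def iotaB : (ℚ ≃o ℚ) →* BB where
  toFun γ := ⟨iotaI γ, 1, fun x hx => by
    refine II_ext rfl ?_
    show sd (act0 γ x) = sd x
    rw [sd_act0, if_neg]
    intro h
    rw [h] at hx
    norm_num at hx⟩
  map_one' := by
    apply Subtype.ext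
    apply RelIso.ext
    intro x
    refine II_ext rfl ?_
    show sd (act0 1 x) = sd x
    rw [sd_act0]
    split_ifs <;> rfl
  map_mul' γ δ := by
    apply Subtype.ext
    apply RelIso.ext
    intro x
    refine II_ext rfl ?_
    show sd (act0 (γ * δ) x) = sd (act0 γ (act0 δ x))
    rw [sd_act0, sd_act0, fs_act0, sd_act0]
    split_ifs <;> rfl

theorem iotaB_injective : Function.Injective iotaB := by
  intro γ δ h
  apply RelIso.ext
  intro q
  have h1 := congrArg (fun s : BB => sd (s.1 (toLex (0, q)))) h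
  have h2 : ∀ γ : ℚ ≃o ℚ, sd ((iotaB γ).1 (toLex (0, q))) = γ q := by
    intro γ
    show sd (act0 γ (toLex (0, q))) = γ q
    rw [sd_act0]
    exact if_pos rfl
  simpa only [h2] using h1

/-! ### displacement -/

/-- the piecewise linear automorphism moving `-M` to `M` -/
def tM (M : ℚ) (hM : 0 < M) : ℚ ≃o ℚ where
  toFun x := max x (min (2 * x + 3 * M) ((x + 3 * M) / 2))
  invFun y := min y (max ((y - 3 * M) / 2) (2 * y - 3 * M))
  left_inv x := by
    simp only [max_def, min_def]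
    split_ifs <;> linarith
  right_inv y := by
    simp only [max_def, min_def]
    split_ifs <;> linarith
  map_rel_iff' := by
    intro x y
    simp only [Equiv.coe_fn_mk]
    constructor
    · intro h
      by_contra hc
      push Not at hc
      have h1 : 2 * y + 3 * M < 2 * x + 3 * M := by linarith
      have h2 : (y + 3 * M) / 2 < (x + 3 * M) / 2 := by linarith
      have := max_lt_max hc (min_lt_min h1 h2)
      exact absurd h (not_le.2 this)
    · intro h
      have h1 : 2 * x + 3 * M ≤ 2 * y + 3 * M := by linarith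
      have h2 : (x + 3 * M) / 2 ≤ (y + 3 * M) / 2 := by linarith
      exact max_le_max h (min_le_min h1 h2)

theorem tM_apply (M : ℚ) (hM : 0 < M) (x : ℚ) :
    tM M hM x = max x (min (2 * x + 3 * M) ((x + 3 * M) / 2)) := rfl

theorem tM_symm_apply (M : ℚ) (hM : 0 < M) (y : ℚ) :
    (tM M hM).symm y = min y (max ((y - 3 * M) / 2) (2 * y - 3 * M)) := rfl

theorem tM_far (M : ℚ) (hM : 0 < M) (x : ℚ) (hx : 3 * M ≤ |x|) : tM M hM x = x := by
  rw [tM_apply]
  rcases le_abs.1 hx with h | h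
  · rw [max_eq_left]
    exact (min_le_right _ _).trans (by linarith)
  · rw [max_eq_left]
    exact (min_le_left _ _).trans (by linarith)

def tB (M : ℚ) (hM : 0 < M) : BB := ⟨lift1 (tM M hM), 3 * M, fun x hx => II_ext (by
  rw [fs_lift1, tM_far M hM _ hx]) rfl⟩

/-- the inverse powers move everything below `M` to points below `-M` -/
theorem tM_back (M : ℚ) (hM : 0 < M) (x : ℚ) (hx : x < M) (i : ℕ) :
    ((tM M hM)⁻¹ ^ (i + 1)) x < -M := by
  induction i with
  | zero =>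
    rw [zero_add, pow_one]
    show (tM M hM).symm x < -M
    rw [tM_symm_apply]
    rcases lt_or_ge x (-M) with h | h
    · exact (min_le_left _ _).trans_lt h
    · exact (min_le_right _ _).trans_lt (max_lt (by linarith) (by linarith))
  | succ i ih =>
    rw [pow_succ']
    show (tM M hM).symm (((tM M hM)⁻¹ ^ (i + 1)) x) < -M
    rw [tM_symm_apply]
    exact (min_le_left _ _).trans_lt ih

theorem fs_inv_pow (M : ℚ) (hM : 0 < M) (i : ℕ) (x : II) :
    fs ((((tB M hM)⁻¹ ^ i : BB) : II ≃o II) x) = ((tM M hM)⁻¹ ^ i) (fs x) := by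
  induction i generalizing x with
  | zero => rfl
  | succ i ih =>
    rw [pow_succ, pow_succ]
    show fs ((((tB M hM)⁻¹ ^ i : BB) : II ≃o II) ((lift1 (tM M hM)).symm x)) = _
    rw [ih]
    rfl

/-- disjoint supports -/
theorem comm_of_disjoint (M : ℚ) (σ τ : BB) (hσ : ∀ x : II, M ≤ fs x → σ.1 x = x)
    (hτ : ∀ x : II, fs x < M → τ.1 x = x) : Commute σ τ := by
  have h1 : ∀ x : II, M ≤ fs x → M ≤ fs (τ.1 x) := by
    intro x hx
    by_contra hc
    push Not at hc
    have h2 := hτ _ hc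
    have h3 := τ.1.injective h2
    rw [h3] at hc
    linarith
  have h2 : ∀ x : II, fs x < M → fs (σ.1 x) < M := by
    intro x hx
    by_contra hc
    push Not at hc
    have h2 := hσ _ hc
    have h3 := σ.1.injective h2
    rw [h3] at hc
    linarith
  apply Subtype.ext
  apply RelIso.ext
  intro x
  show σ.1 (τ.1 x) = τ.1 (σ.1 x)
  rcases lt_or_ge (fs x) M with hx | hx
  · rw [hτ x hx, hτ _ (h2 x hx)]
  · rw [hσ x hx, hσ _ (h1 x hx)]

/-- every homogeneous quasimorphism of the group of automorphisms with bounded support is a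
homomorphism -/
theorem BB_hom {φ : BB → ℝ} (hφ : IsHQM φ) (g h : BB) : φ (g * h) = φ g + φ h := by
  obtain ⟨M1, h1⟩ := g.2
  obtain ⟨M2, h2⟩ := h.2
  set M : ℚ := max 1 (max M1 M2) with hM
  have hM0 : 0 < M := zero_lt_one.trans_le (le_max_left _ _)
  have hg : ∀ x : II, M ≤ |fs x| → g.1 x = x := fun x hx =>
    h1 x (((le_max_left _ _).trans (le_max_right _ _)).trans hx)
  have hh : ∀ x : II, M ≤ |fs x| → h.1 x = x := fun x hx =>
    h2 x (((le_max_right _ _).trans (le_max_right _ _)).trans hx)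
  have key : ∀ (x y : BB), (∀ z : II, M ≤ |fs z| → x.1 z = z) → (∀ z : II, M ≤ |fs z| → y.1 z = z) →
      ∀ i : ℕ, 1 ≤ i → Commute x ((tB M hM0) ^ i * y * ((tB M hM0) ^ i)⁻¹) := by
    intro x y hx hy i hi
    refine comm_of_disjoint M _ _ (fun z hz => hx z (hz.trans (le_abs_self _))) fun z hz => ?_
    show ((tB M hM0) ^ i).1 (y.1 ((((tB M hM0) ^ i)⁻¹).1 z)) = z
    obtain ⟨j, rfl⟩ : ∃ j, i = j + 1 := ⟨i - 1, by omega⟩
    have e1 : ((tB M hM0) ^ (j + 1))⁻¹ = (tB M hM0)⁻¹ ^ (j + 1) := (inv_pow _ _).symm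
    rw [hy]
    · show ((tB M hM0) ^ (j + 1)).1 (((tB M hM0) ^ (j + 1)).1.symm z) = z
      exact OrderIso.apply_symm_apply _ _
    · rw [e1, fs_inv_pow]
      have := tM_back M hM0 (fs z) hz j
      rw [abs_of_neg (by linarith)]
      linarith
  exact hom_of_displace hφ (t := tB M hM0) (fun i hi => ⟨key g g hg hg i hi, key g h hg hh i hi⟩)
    (fun i hi => ⟨key h g hh hg i hi, key h h hh hh i hi⟩)

/-! ### ping-pong -/

/-- `k` with `x ∈ [4k + 2, 4k + 6)` -/
def kk (x : ℚ) : ℤ := ⌊(x - 2) / 4⌋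

theorem kk_le (x : ℚ) : 4 * (kk x : ℚ) + 2 ≤ x := by
  have := Int.floor_le ((x - 2) / 4)
  unfold kk
  linarith

theorem lt_kk (x : ℚ) : x < 4 * (kk x : ℚ) + 6 := by
  have := Int.lt_floor_add_one ((x - 2) / 4)
  unfold kk
  linarith

theorem kk_eq {x : ℚ} {k : ℤ} (h1 : 4 * (k : ℚ) + 2 ≤ x) (h2 : x < 4 * (k : ℚ) + 6) : kk x = k := by
  unfold kk
  rw [Int.floor_eq_iff]
  constructor <;> linarith

/-- the piecewise linear map `a` -/
def pa (x : ℚ) : ℚ :=
  if x < 4 * (kk x : ℚ) + 3 then 3 * x - 8 * (kk x : ℚ) - 5 else x / 3 + 8 * (kk x : ℚ) / 3 + 3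

theorem pa_lt (x : ℚ) : pa x < 4 * (kk x : ℚ) + 5 := by
  have h1 := kk_le x
  have h2 := lt_kk x
  unfold pa
  split_ifs <;> linarith

theorem le_pa (x : ℚ) : 4 * (kk x : ℚ) + 1 ≤ pa x := by
  have h1 := kk_le x
  have h2 := lt_kk x
  unfold pa
  split_ifs <;> linarith

theorem pa_strictMono : StrictMono pa := by
  intro x y h
  have h1 : kk x ≤ kk y := Int.floor_le_floor (by linarith)
  rcases h1.lt_or_eq with h2 | h2
  · have h3 : (kk x : ℚ) + 1 ≤ kk y := by exact_mod_cast h2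
    have := pa_lt x
    have := le_pa y
    linarith
  · unfold pa
    rw [h2]
    split_ifs <;> linarith

theorem pa_surjective : Function.Surjective pa := by
  intro y
  set k : ℤ := ⌊(y - 1) / 4⌋ with hk
  have h1 : 4 * (k : ℚ) + 1 ≤ y := by
    have := Int.floor_le ((y - 1) / 4)
    rw [← hk] at this
    linarith
  have h2 : y < 4 * (k : ℚ) + 5 := by
    have := Int.lt_floor_add_one ((y - 1) / 4)
    rw [← hk] at this
    linarith
  by_cases h : y < 4 * (k : ℚ) + 4
  · refine ⟨(y + 8 * k + 5) / 3, ?_⟩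
    have e : kk ((y + 8 * k + 5) / 3) = k := kk_eq (by linarith) (by linarith)
    unfold pa
    rw [e, if_pos (by linarith)]
    ring
  · push Not at h
    refine ⟨3 * y - 8 * k - 9, ?_⟩
    have e : kk (3 * y - 8 * k - 9) = k := kk_eq (by linarith) (by linarith)
    unfold pa
    rw [e, if_neg (by push Not; linarith)]
    ring

/-- the first element -/
def ea : ℚ ≃o ℚ := pa_strictMono.orderIsoOfSurjective pa pa_surjective

/-- the second element -/
def eb : ℚ ≃o ℚ := ((OrderIso.addRight (-1 : ℚ)).trans ea).trans (OrderIso.addRight (1 : ℚ))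

theorem ea_apply (x : ℚ) : ea x = pa x := rfl

theorem eb_apply (x : ℚ) : eb x = pa (x + -1) + 1 := rfl

/-- the residue class `[j, j+1)` modulo `4` -/
def Rs (j : ℤ) : Set ℚ := {x | ∃ k : ℤ, 4 * (k : ℚ) + j ≤ x ∧ x < 4 * (k : ℚ) + j + 1}

theorem Rs_disj {i j : ℤ} (hij : i < j) (hj : j < i + 4) {x : ℚ} (h1 : x ∈ Rs i) (h2 : x ∈ Rs j) :
    False := by
  obtain ⟨k, h3, h4⟩ := h1
  obtain ⟨l, h5, h6⟩ := h2
  have e1 : (4 * k + i : ℤ) < 4 * l + j + 1 := by exact_mod_cast h3.trans_lt h6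
  have e2 : (4 * l + j : ℤ) < 4 * k + i + 1 := by exact_mod_cast h5.trans_lt h4
  omega

theorem pa_pp {x : ℚ} (hx : x ∉ Rs 2) : pa x ∈ Rs 0 := by
  have h1 := kk_le x
  have h2 := lt_kk x
  have h3 : 4 * (kk x : ℚ) + 3 ≤ x := by
    by_contra h
    push Not at h
    exact hx ⟨kk x, by push_cast; linarith, by push_cast; linarith⟩
  refine ⟨kk x + 1, ?_, ?_⟩
  · unfold pa
    rw [if_neg (by push Not; linarith)]
    push_cast
    linarith
  · unfold pa
    rw [if_neg (by push Not; linarith)]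
    push_cast
    linarith

theorem shift_Rs {x : ℚ} {j : ℤ} : x + -1 ∈ Rs j ↔ x ∈ Rs (j + 1) := by
  constructor
  · rintro ⟨k, h1, h2⟩
    exact ⟨k, by push_cast at *; linarith, by push_cast at *; linarith⟩
  · rintro ⟨k, h1, h2⟩
    exact ⟨k, by push_cast at *; linarith, by push_cast at *; linarith⟩

theorem eb_pp {x : ℚ} (hx : x ∉ Rs 3) : eb x ∈ Rs 1 := by
  have h1 : x + -1 ∉ Rs 2 := fun h => hx (shift_Rs.1 h)
  have h2 := pa_pp h1
  rw [eb_apply]
  have h3 : (pa (x + -1) + 1) + -1 ∈ Rs 0 := by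
    have : pa (x + -1) + 1 + -1 = pa (x + -1) := by ring
    rw [this]
    exact h2
  exact shift_Rs.1 h3

/-- the tautological action -/
instance instActQ : MulAction (ℚ ≃o ℚ) ℚ where
  smul σ x := σ x
  one_smul _ := rfl
  mul_smul _ _ _ := rfl

theorem BB_not_amenable : ¬ Amenable BB := by
  have d : ∀ {i j : ℤ}, i < j → j < i + 4 → Disjoint (Rs i) (Rs j) := fun h1 h2 =>
    Set.disjoint_left.2 fun x hx hy => Rs_disj h1 h2 hx hy
  refine not_amenable_of_pingpong (Ω := ℚ) iotaB iotaB_injective ea eb (Rs 0) (Rs 2) (Rs 1) (Rs 3)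
    (fun x hx => pa_pp hx) (fun x hx => eb_pp hx) (d (by norm_num) (by norm_num)) ?_ ?_
  · rw [Set.disjoint_union_left]
    exact ⟨d (by norm_num) (by norm_num), (d (by norm_num) (by norm_num)).symm⟩
  · rw [Set.disjoint_union_left, Set.disjoint_union_left]
    exact ⟨⟨d (by norm_num) (by norm_num), d (by norm_num) (by norm_num)⟩,
      d (by norm_num) (by norm_num)⟩

end Pool.Agent.X283.BMG
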