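import Mathlib

set_option autoImplicit false
set_option linter.unusedSectionVars false

/-!
# Order automorphisms of a countable linear order as homeomorphisms of the line

Let `I` be a countable dense linear order without endpoints.  We blow up every point `q` of `I` to
an open interval of length `w q`, where the `w q` are positive and summable.  The complement of these
intervals in `[0, W]` is a Cantor set, and order automorphisms of `I` act on the line.
-/

noncomputable section

open Filter Topology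

namespace Pool.Agent.X283.BMG

variable {I : Type} [LinearOrder I]

/-- weights -/
structure Wt (I : Type) where
  w : I → ℝ
  pos : ∀ q, 0 < w q
  sum : Summable w

theorem exists_wt (I : Type) [Countable I] : Nonempty (Wt I) := by
  obtain ⟨e⟩ := nonempty_encodable I
  obtain ⟨f, hf, c, hc, -⟩ := posSumOfEncodable (zero_lt_one (α := ℝ)) I
  exact ⟨⟨f, hf, hc.summable⟩⟩

namespace Wt

variable (a : Wt I)

theorem summable_mul {c : I → ℝ} (h0 : ∀ q, 0 ≤ c q) (h1 : ∀ q, c q ≤ 1) :
    Summable fun q => a.w q * c q := by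
  refine Summable.of_nonneg_of_le (fun q => mul_nonneg (a.pos q).le (h0 q)) (fun q => ?_) a.sum
  have := a.pos q
  have := h1 q
  nlinarith

/-- weight of a set -/
def S (A : Set I) : ℝ := ∑' q, A.indicator a.w q

theorem sumS (A : Set I) : Summable (A.indicator a.w) := a.sum.indicator A

theorem S_mono {A B : Set I} (h : A ⊆ B) : a.S A ≤ a.S B := by
  refine (a.sumS A).tsum_le_tsum (fun q => ?_) (a.sumS B)
  exact Set.indicator_le_indicator_of_subset h (fun q => (a.pos q).le) q

theorem S_nonneg (A : Set I) : 0 ≤ a.S A :=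
  tsum_nonneg fun q => Set.indicator_nonneg (fun q _ => (a.pos q).le) q

theorem S_insert {A : Set I} {q : I} (h : q ∉ A) : a.S (insert q A) = a.S A + a.w q := by
  unfold S
  have h1 : (insert q A : Set I).indicator a.w = fun p => A.indicator a.w p +
      (if p = q then a.w q else 0) := by
    funext p
    by_cases hp : p = q
    · subst hp
      simp [h]
    · by_cases hpA : p ∈ A
      · rw [Set.indicator_of_mem (Set.mem_insert_of_mem _ hpA), Set.indicator_of_mem hpA, if_neg hp,
          add_zero]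
      · rw [Set.indicator_of_notMem (by simp [hp, hpA]), Set.indicator_of_notMem hpA, if_neg hp,
          add_zero]
  rw [h1, (a.sumS A).tsum_add (summable_of_hasFiniteSupport
    ((Set.finite_singleton q).subset (by
      intro p hp
      by_contra h
      exact hp (if_neg h)))), tsum_ite_eq]

def W : ℝ := a.S Set.univ

def L (q : I) : ℝ := a.S (Set.Iio q)

def R (q : I) : ℝ := a.S (Set.Iic q)

theorem R_eq (q : I) : a.R q = a.L q + a.w q := by
  unfold R L
  rw [← a.S_insert (q := q) (A := Set.Iio q) (by simp)]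
  congr 1
  ext p
  simp only [Set.mem_Iic, Set.mem_insert_iff, Set.mem_Iio]
  exact le_iff_eq_or_lt

theorem L_nonneg (q : I) : 0 ≤ a.L q := a.S_nonneg _

theorem R_le (q : I) : a.R q ≤ a.W := a.S_mono (Set.subset_univ _)

theorem L_lt_R (q : I) : a.L q < a.R q := by rw [R_eq]; linarith [a.pos q]

theorem R_le_L {p q : I} (h : p < q) : a.R p ≤ a.L q :=
  a.S_mono fun _ hr => lt_of_le_of_lt hr h

theorem W_nonneg : 0 ≤ a.W := a.S_nonneg _

theorem W_eq : a.W = ∑' q, a.w q := by
  unfold W S
  simp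

theorem L_strictMono : StrictMono a.L := fun p q h => (a.L_lt_R p).trans_le (a.R_le_L h)

/-- fraction of the gap `q` to the left of `x` -/
def lam (q : I) (x : ℝ) : ℝ := max 0 (min 1 ((x - a.L q) / a.w q))

theorem lam_nonneg (q : I) (x : ℝ) : 0 ≤ a.lam q x := le_max_left _ _

theorem lam_le_one (q : I) (x : ℝ) : a.lam q x ≤ 1 :=
  max_le zero_le_one (min_le_left _ _)

theorem lam_mono (q : I) : Monotone (a.lam q) := by
  intro x y h
  unfold lam
  have : (x - a.L q) / a.w q ≤ (y - a.L q) / a.w q :=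
    div_le_div_of_nonneg_right (by linarith) (a.pos q).le
  exact max_le_max le_rfl (min_le_min le_rfl this)

theorem lam_eq_zero {q : I} {x : ℝ} (h : x ≤ a.L q) : a.lam q x = 0 := by
  unfold lam
  have : (x - a.L q) / a.w q ≤ 0 := div_nonpos_of_nonpos_of_nonneg (by linarith) (a.pos q).le
  exact max_eq_left ((min_le_right _ _).trans this)

theorem lam_eq_one {q : I} {x : ℝ} (h : a.R q ≤ x) : a.lam q x = 1 := by
  unfold lam
  have h1 : 1 ≤ (x - a.L q) / a.w q := by
    rw [le_div_iff₀ (a.pos q)]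
    have := a.R_eq q
    linarith
  rw [min_eq_left h1]
  exact max_eq_right zero_le_one

theorem lam_mid {q : I} {x : ℝ} (h1 : a.L q ≤ x) (h2 : x ≤ a.R q) :
    a.lam q x = (x - a.L q) / a.w q := by
  unfold lam
  have h3 : (x - a.L q) / a.w q ≤ 1 := by
    rw [div_le_one (a.pos q)]
    have := a.R_eq q
    linarith
  have h4 : 0 ≤ (x - a.L q) / a.w q := div_nonneg (by linarith) (a.pos q).le
  rw [min_eq_right h3, max_eq_right h4]

theorem lam_continuous (q : I) : Continuous (a.lam q) := by
  unfold lam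
  fun_prop

theorem lam_pos_iff {q : I} {x : ℝ} : 0 < a.lam q x ↔ a.L q < x := by
  constructor
  · intro h
    by_contra hc
    rw [a.lam_eq_zero (not_lt.1 hc)] at h
    exact lt_irrefl _ h
  · intro h
    rcases le_total x (a.R q) with h2 | h2
    · rw [a.lam_mid h.le h2]
      exact div_pos (by linarith) (a.pos q)
    · rw [a.lam_eq_one h2]; exact one_pos

theorem lam_lt_one_iff {q : I} {x : ℝ} : a.lam q x < 1 ↔ x < a.R q := by
  constructor
  · intro h
    by_contra hc
    rw [a.lam_eq_one (not_lt.1 hc)] at h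
    exact lt_irrefl _ h
  · intro h
    rcases le_total x (a.L q) with h2 | h2
    · rw [a.lam_eq_zero h2]; exact one_pos
    · rw [a.lam_mid h2 h.le, div_lt_one (a.pos q)]
      have := a.R_eq q
      linarith

/-- a set of gaps to the left of `x` has weight at most `x` -/
theorem S_le_of {A : Set I} {x : ℝ} (hx : 0 ≤ x) (h : ∀ q ∈ A, a.R q ≤ x) : a.S A ≤ x := by
  classical
  refine (a.sumS A).tsum_le_of_sum_le fun F => ?_
  have h1 : ∑ p ∈ F, A.indicator a.w p = ∑ p ∈ F.filter (· ∈ A), a.w p := by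
    rw [Finset.sum_filter]
    rfl
  rw [h1]
  rcases (F.filter (· ∈ A)).eq_empty_or_nonempty with h2 | h2
  · rw [h2]; simpa using hx
  · set m := (F.filter (· ∈ A)).max' h2 with hm
    have hmem := Finset.max'_mem _ h2
    have hmA : m ∈ A := (Finset.mem_filter.1 hmem).2
    refine le_trans ?_ (h m hmA)
    have h3 : ∑ p ∈ F.filter (· ∈ A), a.w p = ∑ p ∈ F.filter (· ∈ A), (Set.Iic m).indicator a.w p := by
      refine Finset.sum_congr rfl fun p hp => ?_
      rw [Set.indicator_of_mem]
      exact Finset.le_max' _ p hp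
    rw [h3]
    exact (a.sumS (Set.Iic m)).sum_le_tsum _ fun p _ =>
      Set.indicator_nonneg (fun q _ => (a.pos q).le) p

/-- a set of gaps to the right of `x` has weight at most `W - x` -/
theorem S_le_of' {A : Set I} {x : ℝ} (hx : x ≤ a.W) (h : ∀ q ∈ A, x ≤ a.L q) :
    a.S A ≤ a.W - x := by
  classical
  refine (a.sumS A).tsum_le_of_sum_le fun F => ?_
  have h1 : ∑ p ∈ F, A.indicator a.w p = ∑ p ∈ F.filter (· ∈ A), a.w p := by
    rw [Finset.sum_filter]
    rfl
  rw [h1]
  rcases (F.filter (· ∈ A)).eq_empty_or_nonempty with h2 | h2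
  · rw [h2]; simpa using hx
  · set m := (F.filter (· ∈ A)).min' h2 with hm
    have hmem := Finset.min'_mem _ h2
    have hmA : m ∈ A := (Finset.mem_filter.1 hmem).2
    have h4 := h m hmA
    have h3 : ∑ p ∈ F.filter (· ∈ A), a.w p = ∑ p ∈ F.filter (· ∈ A), (Set.Ici m).indicator a.w p := by
      refine Finset.sum_congr rfl fun p hp => ?_
      rw [Set.indicator_of_mem]
      exact Finset.min'_le _ p hp
    rw [h3]
    have h5 : ∑ p ∈ F.filter (· ∈ A), (Set.Ici m).indicator a.w p ≤ a.S (Set.Ici m) :=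
      (a.sumS (Set.Ici m)).sum_le_tsum _ fun p _ =>
        Set.indicator_nonneg (fun q _ => (a.pos q).le) p
    have h6 : a.S (Set.Ici m) + a.L m = a.W := by
      unfold L W S
      rw [← (a.sumS (Set.Ici m)).tsum_add (a.sumS (Set.Iio m))]
      refine tsum_congr fun p => ?_
      by_cases hp : p < m
      · rw [Set.indicator_of_notMem (by simpa using hp), Set.indicator_of_mem (by simpa using hp),
          Set.indicator_of_mem (Set.mem_univ _), zero_add]
      · rw [Set.indicator_of_mem (by simpa using hp), Set.indicator_of_notMem (by simpa using hp),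
          Set.indicator_of_mem (Set.mem_univ _), add_zero]
    linarith

/-- the action of an order automorphism on the line -/
def f (σ : I ≃o I) (x : ℝ) : ℝ := (∑' q, a.w (σ q) * a.lam q x) + min x 0 + max (x - a.W) 0

theorem summ (σ : I ≃o I) (x : ℝ) : Summable fun q => a.w (σ q) * a.lam q x := by
  refine Summable.of_nonneg_of_le (fun q => mul_nonneg (a.pos _).le (a.lam_nonneg q x)) (fun q => ?_)
    (a.sum.comp_injective σ.injective)
  have := a.pos (σ q)
  have := a.lam_le_one q x
  simp only [Function.comp_apply]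
  nlinarith

theorem f_mono (σ : I ≃o I) : Monotone (a.f σ) := by
  intro x y h
  unfold f
  have h1 : ∑' q, a.w (σ q) * a.lam q x ≤ ∑' q, a.w (σ q) * a.lam q y :=
    (a.summ σ x).tsum_le_tsum (fun q => mul_le_mul_of_nonneg_left (a.lam_mono q h) (a.pos _).le)
      (a.summ σ y)
  have h2 : min x 0 ≤ min y 0 := min_le_min h le_rfl
  have h3 : max (x - a.W) 0 ≤ max (y - a.W) 0 := max_le_max (by linarith) le_rfl
  linarith

theorem f_continuous (σ : I ≃o I) : Continuous (a.f σ) := by
  unfold f
  have h1 : Continuous fun x => ∑' q, a.w (σ q) * a.lam q x := by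
    refine continuous_tsum (u := fun q => a.w (σ q)) (fun q => ?_)
      (a.sum.comp_injective σ.injective) (fun q x => ?_)
    · exact continuous_const.mul (a.lam_continuous q)
    · rw [Real.norm_eq_abs, abs_of_nonneg (mul_nonneg (a.pos _).le (a.lam_nonneg q x))]
      have := a.pos (σ q)
      have := a.lam_le_one q x
      nlinarith
  fun_prop

theorem tsum_comp (σ : I ≃o I) (A : Set I) :
    ∑' q, a.w (σ q) * A.indicator 1 q = a.S (σ '' A) := by
  unfold S
  rw [← σ.toEquiv.tsum_eq (fun p => (σ '' A).indicator a.w p)]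
  refine tsum_congr fun q => ?_
  by_cases hq : q ∈ A
  · have : σ.toEquiv q ∈ σ '' A := Set.mem_image_of_mem _ hq
    rw [Set.indicator_of_mem hq, Set.indicator_of_mem this]
    simp
  · have : σ.toEquiv q ∉ σ '' A := by
      rintro ⟨p, hp, h⟩
      exact hq (σ.injective h ▸ hp)
    rw [Set.indicator_of_notMem hq, Set.indicator_of_notMem this]
    simp

/-- value at a point of the closed gap `q` -/
theorem f_mid (σ : I ≃o I) {q : I} {x : ℝ} (h1 : a.L q ≤ x) (h2 : x ≤ a.R q) :
    a.f σ x = a.L (σ q) + a.w (σ q) * a.lam q x := by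
  unfold f
  have h3 : min x 0 = 0 := min_eq_right ((a.L_nonneg q).trans h1)
  have h4 : max (x - a.W) 0 = 0 := max_eq_right (by linarith [a.R_le q])
  rw [h3, h4, add_zero, add_zero]
  have h5 : (fun p => a.w (σ p) * a.lam p x) = fun p => a.w (σ p) * (Set.Iio q).indicator 1 p +
      (if p = q then a.w (σ q) * a.lam q x else 0) := by
    funext p
    rcases lt_trichotomy p q with h | h | h
    · rw [a.lam_eq_one ((a.R_le_L h).trans h1), Set.indicator_of_mem (by simpa using h),
        if_neg h.ne]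
      simp
    · subst h
      rw [Set.indicator_of_notMem (by simp), if_pos rfl]
      simp
    · rw [a.lam_eq_zero (h2.trans (a.R_le_L h)),
        Set.indicator_of_notMem (by simpa using h.le), if_neg h.ne']
      simp
  have h6 : Summable fun p => a.w (σ p) * (Set.Iio q).indicator (1 : I → ℝ) p := by
    refine Summable.of_nonneg_of_le (fun p => mul_nonneg (a.pos _).le
      (Set.indicator_nonneg (fun _ _ => zero_le_one) p)) (fun p => ?_)
      (a.sum.comp_injective σ.injective)
    have h7 := a.pos (σ p)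
    have h8 : (Set.Iio q).indicator (1 : I → ℝ) p ≤ 1 := by
      by_cases hp : p ∈ Set.Iio q
      · rw [Set.indicator_of_mem hp]; simp
      · rw [Set.indicator_of_notMem hp]; exact zero_le_one
    simp only [Function.comp_apply]
    nlinarith
  rw [h5, h6.tsum_add (summable_of_hasFiniteSupport ((Set.finite_singleton q).subset (by
      intro p hp
      by_contra h
      exact hp (if_neg h)))), tsum_ite_eq, tsum_comp]
  congr 1
  unfold L
  congr 1
  ext p
  simp only [Set.mem_image, Set.mem_Iio]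
  constructor
  · rintro ⟨r, hr, rfl⟩
    exact σ.strictMono hr
  · intro hp
    exact ⟨σ.symm p, by simpa using σ.symm.strictMono hp, by simp⟩

theorem f_L (σ : I ≃o I) (q : I) : a.f σ (a.L q) = a.L (σ q) := by
  rw [a.f_mid σ le_rfl (a.L_lt_R q).le, a.lam_eq_zero le_rfl, mul_zero, add_zero]

theorem f_R (σ : I ≃o I) (q : I) : a.f σ (a.R q) = a.R (σ q) := by
  rw [a.f_mid σ (a.L_lt_R q).le le_rfl, a.lam_eq_one le_rfl, mul_one, R_eq]

theorem lam_f (σ : I ≃o I) (q : I) (x : ℝ) : a.lam (σ q) (a.f σ x) = a.lam q x := by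
  rcases le_total x (a.L q) with h | h
  · rw [a.lam_eq_zero h, a.lam_eq_zero]
    rw [← a.f_L]
    exact a.f_mono σ h
  · rcases le_total x (a.R q) with h2 | h2
    · have h3 := a.f_mid σ h h2
      have h4 := a.lam_nonneg q x
      have h5 := a.lam_le_one q x
      have h6 := a.pos (σ q)
      rw [a.lam_mid (q := σ q), h3]
      · field_simp
        ring
      · rw [h3]
        nlinarith
      · rw [h3, R_eq]
        nlinarith
    · rw [a.lam_eq_one h2, a.lam_eq_one]
      rw [← a.f_R]
      exact a.f_mono σ h2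

theorem f_neg (σ : I ≃o I) {x : ℝ} (h : x ≤ 0) : a.f σ x = x := by
  unfold f
  have h1 : ∑' q, a.w (σ q) * a.lam q x = 0 := by
    rw [← tsum_zero (α := ℝ) (β := I)]
    refine tsum_congr fun q => ?_
    rw [a.lam_eq_zero (h.trans (a.L_nonneg q)), mul_zero]
  rw [h1, min_eq_left h, max_eq_right (by linarith [a.W_nonneg])]
  ring

theorem f_ge (σ : I ≃o I) {x : ℝ} (h : a.W ≤ x) : a.f σ x = x := by
  unfold f
  have h1 : ∑' q, a.w (σ q) * a.lam q x = a.W := by
    rw [a.W_eq, ← σ.toEquiv.tsum_eq a.w]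
    refine tsum_congr fun q => ?_
    rw [a.lam_eq_one ((a.R_le q).trans h), mul_one]
    rfl
  rw [h1, min_eq_right (a.W_nonneg.trans h), max_eq_left (by linarith)]
  ring

theorem f_min (σ : I ≃o I) (x : ℝ) : min (a.f σ x) 0 = min x 0 := by
  rcases le_total x 0 with h | h
  · rw [a.f_neg σ h]
  · rw [min_eq_right h, min_eq_right]
    rw [← a.f_neg σ le_rfl]
    exact a.f_mono σ h

theorem f_max (σ : I ≃o I) (x : ℝ) : max (a.f σ x - a.W) 0 = max (x - a.W) 0 := by
  rcases le_total a.W x with h | h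
  · rw [a.f_ge σ h]
  · have h1 := a.f_mono σ h
    rw [a.f_ge σ (le_refl a.W)] at h1
    rw [max_eq_right (by linarith), max_eq_right (by linarith)]

/-- the gaps fill the interval up to a null set -/
theorem f_one (x : ℝ) : a.f (1 : I ≃o I) x = x := by
  rcases le_total x 0 with h0 | h0
  · exact a.f_neg _ h0
  rcases le_total a.W x with hW | hW
  · exact a.f_ge _ hW
  by_cases hq : ∃ q, a.L q ≤ x ∧ x ≤ a.R q
  · obtain ⟨q, h1, h2⟩ := hq
    rw [a.f_mid _ h1 h2, a.lam_mid h1 h2]
    have := a.pos q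
    show a.L q + a.w q * _ = x
    field_simp
    ring
  · push Not at hq
    unfold f
    rw [min_eq_right h0, max_eq_right (by linarith), add_zero, add_zero]
    set A : Set I := {q | a.L q ≤ x} with hA
    have h1 : ∑' q, a.w ((1 : I ≃o I) q) * a.lam q x = a.S A := by
      unfold S
      refine tsum_congr fun q => ?_
      show a.w q * a.lam q x = _
      by_cases h : a.L q ≤ x
      · rw [Set.indicator_of_mem (show q ∈ A from h), a.lam_eq_one (hq q h).le, mul_one]
      · rw [Set.indicator_of_notMem (show q ∉ A from h), a.lam_eq_zero (not_le.1 h).le, mul_zero]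
    have h2 : a.S A ≤ x := a.S_le_of h0 fun q h => (hq q h).le
    have h3 : a.S Aᶜ ≤ a.W - x := a.S_le_of' hW fun q h =>
      (not_le.1 (show ¬ a.L q ≤ x from h)).le
    have h4 : a.S A + a.S Aᶜ = a.W := by
      unfold W S
      rw [← (a.sumS A).tsum_add (a.sumS Aᶜ)]
      refine tsum_congr fun p => ?_
      by_cases hp : p ∈ A
      · simp [hp]
      · simp [hp]
    rw [h1]
    linarith

theorem f_mul (σ τ : I ≃o I) (x : ℝ) : a.f (σ * τ) x = a.f σ (a.f τ x) := by
  show a.f (σ * τ) x = (∑' q, a.w (σ q) * a.lam q (a.f τ x)) + min (a.f τ x) 0 +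
    max (a.f τ x - a.W) 0
  rw [a.f_min, a.f_max]
  show (∑' q, a.w ((σ * τ) q) * a.lam q x) + min x 0 + max (x - a.W) 0 = _
  congr 2
  rw [← τ.toEquiv.tsum_eq (fun q => a.w (σ q) * a.lam q (a.f τ x))]
  refine tsum_congr fun q => ?_
  show a.w (σ (τ q)) * a.lam q x = a.w (σ (τ q)) * a.lam (τ q) (a.f τ x)
  rw [a.lam_f]

/-- the homeomorphism of the line -/
def F (σ : I ≃o I) : ℝ ≃ₜ ℝ where
  toFun := a.f σ
  invFun := a.f σ⁻¹
  left_inv := fun x => by rw [← a.f_mul, inv_mul_cancel, a.f_one]
  right_inv := fun x => by rw [← a.f_mul, mul_inv_cancel, a.f_one]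
  continuous_toFun := a.f_continuous σ
  continuous_invFun := a.f_continuous σ⁻¹

theorem F_strictMono (σ : I ≃o I) : StrictMono (a.F σ) :=
  (a.f_mono σ).strictMono_of_injective (a.F σ).injective

/-! ### the Cantor set -/

/-- the Cantor set: the complement of the gaps in `[0, W]` -/
def K : Set ℝ := {x | 0 ≤ x ∧ x ≤ a.W ∧ ∀ q, ¬ (a.L q < x ∧ x < a.R q)}

theorem K_compact : IsCompact a.K := by
  have h1 : IsClosed a.K := by
    have : a.K = Set.Icc 0 a.W ∩ ⋂ q, (Set.Ioo (a.L q) (a.R q))ᶜ := by
      ext x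
      simp only [K, Set.mem_ofPred_eq, Set.mem_inter_iff, Set.mem_Icc, Set.mem_iInter,
        Set.mem_compl_iff, Set.mem_Ioo, and_assoc]
    rw [this]
    exact isClosed_Icc.inter (isClosed_iInter fun q => isOpen_Ioo.isClosed_compl)
  exact isCompact_Icc.of_isClosed_subset h1 fun x hx => ⟨hx.1, hx.2.1⟩

theorem L_mem (q : I) : a.L q ∈ a.K := by
  refine ⟨a.L_nonneg q, (a.L_lt_R q).le.trans (a.R_le q), fun p h => ?_⟩
  rcases lt_trichotomy p q with h1 | h1 | h1
  · exact absurd (a.R_le_L h1) (not_le.2 h.2)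
  · subst h1; exact lt_irrefl _ h.1
  · exact absurd (a.L_strictMono h1) (not_lt.2 h.1.le)

theorem R_mem (q : I) : a.R q ∈ a.K := by
  refine ⟨(a.L_nonneg q).trans (a.L_lt_R q).le, a.R_le q, fun p h => ?_⟩
  rcases lt_trichotomy p q with h1 | h1 | h1
  · have := (a.R_le_L h1).trans (a.L_lt_R q).le
    exact absurd this (not_le.2 h.2)
  · subst h1; exact lt_irrefl _ h.2
  · exact absurd (a.R_le_L h1) (not_le.2 h.1)

/-- between two points of `[0, W]` there is a part of a gap -/
theorem exists_gap {x y : ℝ} (hx : 0 ≤ x) (hxy : x < y) (hy : y ≤ a.W) :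
    ∃ q, a.L q < y ∧ x < a.R q := by
  by_contra h
  push Not at h
  have h1 : ∀ q, a.lam q x = a.lam q y := by
    intro q
    rcases lt_or_ge (a.L q) y with h2 | h2
    · have := h q h2
      rw [a.lam_eq_one this, a.lam_eq_one (this.trans hxy.le)]
    · rw [a.lam_eq_zero h2, a.lam_eq_zero (hxy.le.trans h2)]
  have h2 : a.f (1 : I ≃o I) x = a.f (1 : I ≃o I) y := by
    unfold f
    simp only [h1]
    rw [min_eq_right hx, min_eq_right (hx.trans hxy.le), max_eq_right (by linarith),
      max_eq_right (by linarith)]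
  rw [a.f_one, a.f_one] at h2
  exact hxy.ne h2

theorem mem_K_iff (σ : I ≃o I) (x : ℝ) : a.f σ x ∈ a.K ↔ x ∈ a.K := by
  have key : ∀ (σ : I ≃o I) (x : ℝ), x ∈ a.K → a.f σ x ∈ a.K := by
    intro σ x hx
    refine ⟨?_, ?_, ?_⟩
    · rw [← a.f_neg σ (le_refl 0)]; exact a.f_mono σ hx.1
    · rw [← a.f_ge σ (le_refl a.W)]; exact a.f_mono σ hx.2.1
    · intro q h
      have h1 : q = σ (σ.symm q) := by simp
      rw [h1, ← a.f_L, ← a.f_R] at h
      have h2 := (a.F_strictMono σ).lt_iff_lt.1 h.1
      have h3 := (a.F_strictMono σ).lt_iff_lt.1 h.2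
      exact hx.2.2 _ ⟨h2, h3⟩
  refine ⟨fun h => ?_, key σ x⟩
  have := key σ⁻¹ _ h
  rwa [← a.f_mul, inv_mul_cancel, a.f_one] at this

variable [DenselyOrdered I] [NoMinOrder I] [NoMaxOrder I] [Nonempty I]

theorem R_lt_L {p q : I} (h : p < q) : a.R p < a.L q := by
  obtain ⟨r, h1, h2⟩ := exists_between h
  exact (a.R_le_L h1).trans_lt ((a.L_lt_R r).trans_le (a.R_le_L h2))

theorem R_lt_W (q : I) : a.R q < a.W := by
  obtain ⟨p, hp⟩ := exists_gt q
  exact (a.R_lt_L hp).trans ((a.L_lt_R p).trans_le (a.R_le p))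

theorem L_pos (q : I) : 0 < a.L q := by
  obtain ⟨p, hp⟩ := exists_lt q
  exact (a.L_nonneg p).trans_lt ((a.L_lt_R p).trans (a.R_lt_L hp))

theorem W_pos : 0 < a.W := by
  obtain ⟨q⟩ := ‹Nonempty I›
  exact (a.L_pos q).trans ((a.L_lt_R q).trans (a.R_lt_W q))

/-- every point of `K` is a limit of other points of `K` -/
theorem K_perfect {x : ℝ} (hx : x ∈ a.K) {ε : ℝ} (hε : 0 < ε) :
    ∃ y ∈ a.K, y ≠ x ∧ |y - x| < ε := by
  -- approach from the right
  have right : x < a.W → (∀ q, a.L q ≠ x) → ∃ y ∈ a.K, y ≠ x ∧ |y - x| < ε := by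
    intro h1 h2
    obtain ⟨q, hq1, hq2⟩ := a.exists_gap hx.1 (y := min (x + ε) a.W) (lt_min (by linarith) h1)
      (min_le_right _ _)
    have h3 : x < a.L q := by
      rcases lt_trichotomy x (a.L q) with h | h | h
      · exact h
      · exact absurd h.symm (h2 q)
      · exact absurd ⟨h, hq2⟩ (hx.2.2 q)
    refine ⟨a.L q, a.L_mem q, h3.ne', ?_⟩
    rw [abs_of_pos (by linarith)]
    have := hq1.trans_le (min_le_left _ _)
    linarith
  have left : 0 < x → (∀ q, a.R q ≠ x) → ∃ y ∈ a.K, y ≠ x ∧ |y - x| < ε := by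
    intro h1 h2
    obtain ⟨q, hq1, hq2⟩ := a.exists_gap (x := max (x - ε) 0) (y := x) (le_max_right _ _)
      (max_lt (by linarith) h1) hx.2.1
    have h3 : a.R q < x := by
      rcases lt_trichotomy x (a.R q) with h | h | h
      · exact absurd ⟨hq1, h⟩ (hx.2.2 q)
      · exact absurd h.symm (h2 q)
      · exact h
    refine ⟨a.R q, a.R_mem q, h3.ne, ?_⟩
    rw [abs_of_neg (by linarith)]
    have := (le_max_left _ _).trans_lt hq2
    linarith
  by_cases hL : ∃ q, a.L q = x
  · obtain ⟨q, hq⟩ := hL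
    refine left (by rw [← hq]; exact a.L_pos q) fun p hp => ?_
    rw [← hq] at hp
    rcases lt_or_ge p q with h | h
    · exact (a.R_lt_L h).ne hp
    · have h1 : a.L q ≤ a.L p := a.L_strictMono.monotone h
      have h2 := a.L_lt_R p
      linarith
  · push Not at hL
    rcases hx.2.1.lt_or_eq with h | h
    · exact right h hL
    · refine left (by rw [h]; exact a.W_pos) fun q hq => ?_
      rw [h] at hq
      exact (a.R_lt_W q).ne hq

theorem K_nonempty : a.K.Nonempty := by
  obtain ⟨q⟩ := ‹Nonempty I›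
  exact ⟨_, a.L_mem q⟩

end Wt

end Pool.Agent.X283.BMG
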