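import Pool.Agent.X283.BMG.Surf
import Pool.Agent.X283.BMG.Line

set_option autoImplicit false
set_option linter.unusedSectionVars false

/-!
# Order automorphisms as mapping classes of the plane minus a Cantor set
-/

noncomputable section

open Filter Topology Complex

namespace Pool.Agent.X283.BMG.Wt

variable {J : Type} [LinearOrder J] (a : Wt J)

/-- the Cantor set in the plane -/
def C2 : Set ℂ := {z | z.im = 0 ∧ z.re ∈ a.K}

theorem C2_eq : a.C2 = (fun x : ℝ => (x : ℂ)) '' a.K := by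
  ext z
  constructor
  · rintro ⟨h1, h2⟩
    exact ⟨z.re, h2, Complex.ext rfl (by simp [h1])⟩
  · rintro ⟨x, hx, rfl⟩
    exact ⟨by simp, by simpa using hx⟩

/-- the plane map -/
def pm (σ : J ≃o J) (z : ℂ) : ℂ := ⟨a.f σ z.re, z.im⟩

theorem pm_continuous (σ : J ≃o J) : Continuous (a.pm σ) := by
  have h : a.pm σ = fun z : ℂ => ((a.f σ z.re : ℝ) : ℂ) + (z.im : ℂ) * I := by
    funext z
    apply Complex.ext <;> simp [pm]
  rw [h]
  have h1 := a.f_continuous σ
  have h2 : Continuous fun z : ℂ => ((a.f σ z.re : ℝ) : ℂ) :=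
    continuous_ofReal.comp (h1.comp continuous_re)
  exact h2.add ((continuous_ofReal.comp continuous_im).mul continuous_const)

theorem pm_mul (σ τ : J ≃o J) (z : ℂ) : a.pm (σ * τ) z = a.pm σ (a.pm τ z) := by
  unfold pm
  rw [a.f_mul]

theorem pm_one (z : ℂ) : a.pm (1 : J ≃o J) z = z := by
  unfold pm
  rw [a.f_one]

theorem pm_mem (σ : J ≃o J) (z : ℂ) : a.pm σ z ∈ a.C2 ↔ z ∈ a.C2 :=
  and_congr_right fun _ => a.mem_K_iff σ z.re

/-- the homeomorphism of the surface -/
def Th (σ : J ≃o J) : Surf a.C2 ≃ₜ Surf a.C2 where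
  toFun z := ⟨a.pm σ z, fun h => z.2 ((a.pm_mem σ z).1 h)⟩
  invFun z := ⟨a.pm σ⁻¹ z, fun h => z.2 ((a.pm_mem σ⁻¹ z).1 h)⟩
  left_inv z := Subtype.ext (by
    show a.pm σ⁻¹ (a.pm σ z) = z
    rw [← pm_mul, inv_mul_cancel, pm_one])
  right_inv z := Subtype.ext (by
    show a.pm σ (a.pm σ⁻¹ z) = z
    rw [← pm_mul, mul_inv_cancel, pm_one])
  continuous_toFun := Continuous.subtype_mk ((a.pm_continuous σ).comp continuous_subtype_val) _
  continuous_invFun := Continuous.subtype_mk ((a.pm_continuous σ⁻¹).comp continuous_subtype_val) _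

theorem Th_coe (σ : J ≃o J) (z : Surf a.C2) : (a.Th σ z : ℂ) = a.pm σ z := rfl

def ThHom : (J ≃o J) →* (Surf a.C2 ≃ₜ Surf a.C2) where
  toFun := a.Th
  map_one' := by
    ext z
    exact a.pm_one _
  map_mul' σ τ := by
    ext z
    exact a.pm_mul σ τ _

/-! ### orientation -/

theorem C2_closed : IsClosed a.C2 := by
  rw [C2_eq]
  exact (a.K_compact.image continuous_ofReal).isClosed

theorem orient (σ : J ≃o J) : OrientationPreserving (a.Th σ) := by
  intro z
  obtain ⟨r₀, hr₀, hball⟩ := Metric.isOpen_iff.1 a.C2_closed.isOpen_compl z.1 z.2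
  refine ⟨r₀, hr₀, fun r hr hrr => ?_⟩
  set A : ℝ → ℝ := fun t => a.f σ (z.1.re + r * Real.cos t) - a.f σ z.1.re with hA
  have hAc : Continuous A := by
    have := a.f_continuous σ
    simp only [hA]
    fun_prop
  have hmono := a.F_strictMono σ
  have hAs : ∀ t, 0 ≤ A t * Real.cos t := by
    intro t
    simp only [hA]
    rcases le_total 0 (Real.cos t) with h | h
    · have : a.f σ z.1.re ≤ a.f σ (z.1.re + r * Real.cos t) := a.f_mono σ (by nlinarith)
      exact mul_nonneg (by linarith) h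
    · have : a.f σ (z.1.re + r * Real.cos t) ≤ a.f σ z.1.re := a.f_mono σ (by nlinarith)
      exact mul_nonneg_of_nonpos_of_nonpos (by linarith) h
  have hA0 : ∀ t, Real.cos t ≠ 0 → 0 < A t * Real.cos t := by
    intro t ht
    simp only [hA]
    rcases lt_or_gt_of_ne ht with h | h
    · have : a.f σ (z.1.re + r * Real.cos t) < a.f σ z.1.re := hmono (by nlinarith)
      exact mul_pos_of_neg_of_neg (by linarith) h
    · have : a.f σ z.1.re < a.f σ (z.1.re + r * Real.cos t) := hmono (by nlinarith)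
      exact mul_pos (by linarith) h
  set v : ℝ → ℂ := fun t => (A t : ℂ) + (r * Real.sin t : ℝ) * I with hv
  set u : ℝ → ℂ := fun t => v t * exp (-(t * I)) with hu
  have hvc : Continuous v := by
    simp only [hv]
    fun_prop
  have huc : Continuous u := by
    simp only [hu]
    fun_prop
  have hexp : ∀ t : ℝ, exp (-(t * I)) = (Real.cos t : ℂ) - (Real.sin t : ℂ) * I := by
    intro t
    have : -((t : ℂ) * I) = ((-t : ℝ) : ℂ) * I := by push_cast; ring
    rw [this, exp_mul_I, ← ofReal_cos, ← ofReal_sin, Real.cos_neg, Real.sin_neg]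
    push_cast
    ring
  have hre : ∀ t, (u t).re = A t * Real.cos t + r * Real.sin t ^ 2 := by
    intro t
    simp only [hu, hv, hexp]
    simp only [mul_re, add_re, sub_re, add_im, sub_im, mul_im, ofReal_re, ofReal_im, I_re, I_im]
    ring
  have hpos : ∀ t, 0 < (u t).re := by
    intro t
    rw [hre]
    by_cases hc : Real.cos t = 0
    · have h1 : Real.sin t ^ 2 = 1 := by
        have := Real.sin_sq_add_cos_sq t
        rw [hc] at this
        linarith
      rw [hc, h1]
      linarith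
    · have h1 := hA0 t hc
      have h2 : 0 ≤ r * Real.sin t ^ 2 := by positivity
      linarith
  refine ⟨fun t => t + arg (u t), ?_, fun t => ?_, fun t => ?_⟩
  · refine continuous_id.add ?_
    rw [continuous_iff_continuousAt]
    intro t
    exact (continuousAt_arg (Or.inl (hpos t))).comp huc.continuousAt
  · have e1 : A (t + 2 * Real.pi) = A t := by
      simp only [hA]
      rw [Real.cos_add_two_pi]
    have e2 : v (t + 2 * Real.pi) = v t := by
      simp only [hv]
      rw [e1, Real.sin_add_two_pi]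
    have e3 : u (t + 2 * Real.pi) = u t := by
      simp only [hu]
      rw [e2, hexp, hexp, Real.cos_add_two_pi, Real.sin_add_two_pi]
    simp only [e3]
    ring
  · have hw : (z : ℂ) + r * exp (t * I) ∈ (a.C2)ᶜ := by
      apply hball
      rw [Metric.mem_ball, dist_eq]
      have : (z : ℂ) + r * exp (t * I) - z = r * exp (t * I) := by ring
      rw [this, norm_mul, norm_exp_ofReal_mul_I, mul_one, norm_real, Real.norm_eq_abs,
        abs_of_pos hr]
      exact hrr
    refine ⟨⟨_, hw⟩, rfl, ?_⟩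
    have e1 : ((a.Th σ ⟨_, hw⟩ : ℂ) - a.Th σ z) = v t := by
      rw [Th_coe, Th_coe]
      have hrr : ((z : ℂ) + r * exp (t * I)).re = z.1.re + r * Real.cos t := by
        rw [exp_mul_I, ← ofReal_cos, ← ofReal_sin]
        simp only [add_re, mul_re, add_im, mul_im, ofReal_re, ofReal_im, I_re, I_im]
        ring
      have hii : ((z : ℂ) + r * exp (t * I)).im = z.1.im + r * Real.sin t := by
        rw [exp_mul_I, ← ofReal_cos, ← ofReal_sin]
        simp only [add_re, mul_re, add_im, mul_im, ofReal_re, ofReal_im, I_re, I_im]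
        ring
      apply Complex.ext
      · simp only [pm, hv, hA, sub_re, hrr, add_re, mul_re, ofReal_re, ofReal_im, I_re, I_im]
        ring
      · simp only [pm, hv, hA, sub_im, hii, add_im, mul_im, ofReal_re, ofReal_im, I_re, I_im]
        ring
    rw [e1]
    have e2 : v t = u t * exp (t * I) := by
      simp only [hu]
      rw [mul_assoc, ← Complex.exp_add]
      simp
    have e3 : ‖v t‖ = ‖u t‖ := by
      rw [e2, norm_mul, norm_exp_ofReal_mul_I, mul_one]
    rw [e3]
    conv_lhs => rw [e2, ← norm_mul_exp_arg_mul_I (u t)]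
    rw [mul_assoc, ← Complex.exp_add]
    congr 2
    push_cast
    ring

/-! ### the Cantor set -/

variable [DenselyOrdered J] [NoMinOrder J] [NoMaxOrder J] [Nonempty J]

/-- midpoint of the gap -/
def mid (q : J) : ℝ := (a.L q + a.R q) / 2

theorem mid_gt (q : J) : a.L q < a.mid q := by
  unfold mid
  linarith [a.L_lt_R q]

theorem mid_lt (q : J) : a.mid q < a.R q := by
  unfold mid
  linarith [a.L_lt_R q]

theorem mid_notMem (q : J) : a.mid q ∉ a.K := fun h => h.2.2 q ⟨a.mid_gt q, a.mid_lt q⟩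

theorem isCantor : IsCantorSet a.C2 := by
  refine ⟨?_, ?_, ?_, ?_⟩
  · rw [C2_eq]
    exact a.K_nonempty.image _
  · rw [C2_eq]
    exact a.K_compact.image continuous_ofReal
  · rintro x ⟨hx1, hx2⟩ ε hε
    obtain ⟨y, hy, hne, hlt⟩ := a.K_perfect hx2 hε
    have hx : x = (x.re : ℂ) := Complex.ext rfl (by simp [hx1])
    refine ⟨(y : ℂ), ⟨by simp, by simpa using hy⟩, ?_, ?_⟩
    · intro h
      apply hne
      rw [hx] at h
      exact_mod_cast h
    · rw [hx, dist_eq, ← ofReal_sub, norm_real, Real.norm_eq_abs]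
      exact hlt
  · intro t ht hpre x hx y hy
    have h1 : IsPreconnected (Complex.re '' t) := hpre.image _ continuous_re.continuousOn
    have key : ∀ x ∈ t, ∀ y ∈ t, ¬ x.re < y.re := by
      intro x hx y hy hlt
      have hxK := (ht hx).2
      have hyK := (ht hy).2
      obtain ⟨q, hq1, hq2⟩ := a.exists_gap hxK.1 hlt hyK.2.1
      have h2 : x.re ≤ a.L q := by
        by_contra h
        push Not at h
        exact hxK.2.2 q ⟨h, hq2⟩
      have h3 : a.R q ≤ y.re := by
        by_contra h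
        push Not at h
        exact hyK.2.2 q ⟨hq1, h⟩
      have h4 : a.mid q ∈ Complex.re '' t := by
        refine h1.Icc_subset (Set.mem_image_of_mem _ hx) (Set.mem_image_of_mem _ hy) ⟨?_, ?_⟩
        · exact h2.trans (a.mid_gt q).le
        · exact (a.mid_lt q).le.trans h3
      obtain ⟨z, hz, hzm⟩ := h4
      exact a.mid_notMem q (hzm ▸ (ht hz).2)
    apply Complex.ext
    · exact le_antisymm (not_lt.1 (key y hy x hx)) (not_lt.1 (key x hx y hy))
    · rw [(ht hx).1, (ht hy).1]

/-- An order automorphism inducing a homeomorphism isotopic to the identity is the identity. -/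
theorem Th_injective {σ : J ≃o J} (h : IsotopicToId (a.Th σ)) : σ = 1 := by
  apply RelIso.ext
  intro q
  show σ q = q
  by_contra hne
  -- a gap `r` to the left of `q`
  obtain ⟨r, hr1, hr2⟩ : ∃ r, r < q ∧ (σ q < q → σ q < r) := by
    by_cases hlt : σ q < q
    · obtain ⟨r, h1, h2⟩ := exists_between hlt
      exact ⟨r, h2, fun _ => h1⟩
    · obtain ⟨r, hr⟩ := exists_lt q
      exact ⟨r, hr, fun h => absurd h hlt⟩
  set g1 := a.mid r with hg1
  set g2 := a.mid q with hg2
  have h1 : g1 < a.L q := (a.mid_lt r).trans (a.R_lt_L hr1)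
  have h2 : a.L q < g2 := a.mid_gt q
  have h3 : a.L (σ q) < g1 ∨ g2 < a.L (σ q) := by
    rcases lt_or_gt_of_ne hne with hlt | hgt
    · exact Or.inl ((a.L_strictMono (hr2 hlt)).trans (a.mid_gt r))
    · exact Or.inr ((a.mid_lt q).trans (a.R_lt_L hgt))
  set m : ℝ := (g1 + g2) / 2 with hm
  set ρ : ℝ := (g2 - g1) / 2 with hρ
  set c : ℂ := (a.L q : ℂ) with hc
  set c' : ℂ := (a.L (σ q) : ℂ) with hc'
  -- the sequence
  have hxmem : ∀ n : ℕ, (⟨a.L q, 1 / ((n : ℝ) + 1)⟩ : ℂ) ∈ (a.C2)ᶜ := by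
    intro n hn
    have : (1 : ℝ) / ((n : ℝ) + 1) = 0 := hn.1
    have h4 : (0 : ℝ) < 1 / ((n : ℝ) + 1) := by positivity
    linarith
  set x : ℕ → Surf a.C2 := fun n => ⟨⟨a.L q, 1 / ((n : ℝ) + 1)⟩, hxmem n⟩ with hx
  have lim : ∀ s : ℝ, Tendsto (fun n : ℕ => (⟨s, 1 / ((n : ℝ) + 1)⟩ : ℂ)) atTop (𝓝 (s : ℂ)) := by
    intro s
    have h4 : Tendsto (fun n : ℕ => (s : ℂ) + ((1 / ((n : ℝ) + 1) : ℝ) : ℂ) * Complex.I) atTop
        (𝓝 ((s : ℂ) + ((0 : ℝ) : ℂ) * Complex.I)) :=
      tendsto_const_nhds.add (((continuous_ofReal.tendsto 0).comp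
        tendsto_one_div_add_atTop_nhds_zero_nat).mul tendsto_const_nhds)
    have e1 : (s : ℂ) + ((0 : ℝ) : ℂ) * Complex.I = s := by simp
    rw [e1] at h4
    refine h4.congr fun n => ?_
    apply Complex.ext
    · simp only [add_re, mul_re, ofReal_re, ofReal_im, I_re, I_im]; ring
    · simp only [add_im, mul_im, ofReal_re, ofReal_im, I_re, I_im]; ring
  have hlim1 : Tendsto (fun n => (x n : ℂ)) atTop (𝓝 c) := lim _
  have hTx : ∀ n, (a.Th σ (x n) : ℂ) = ⟨a.L (σ q), 1 / ((n : ℝ) + 1)⟩ := by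
    intro n
    rw [Th_coe]
    show (⟨a.f σ (a.L q), _⟩ : ℂ) = _
    rw [a.f_L]
  have hlim2 : Tendsto (fun n => (a.Th σ (x n) : ℂ)) atTop (𝓝 c') := by
    simp only [hTx]
    exact lim _
  have dr : ∀ s : ℝ, dist (s : ℂ) (m : ℂ) = |s - m| := by
    intro s
    rw [dist_eq, ← ofReal_sub, norm_real, Real.norm_eq_abs]
  refine no_crossing (C := a.C2) h (m := (m : ℂ)) (ρ := ρ) ?_ (c := c) ?_ hlim1 ?_ ?_
  · rintro z ⟨hz1, hz2⟩ hd
    have hz : z = (z.re : ℂ) := Complex.ext rfl (by simp [hz1])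
    rw [hz, dr] at hd
    rcases abs_eq (by rw [hρ]; linarith : (0 : ℝ) ≤ ρ) |>.1 hd with h5 | h5
    · have : z.re = g2 := by rw [hm, hρ] at h5; linarith
      exact a.mid_notMem q (by rw [← hg2, ← this]; exact hz2)
    · have : z.re = g1 := by rw [hm, hρ] at h5; linarith
      exact a.mid_notMem r (by rw [← hg1, ← this]; exact hz2)
  · exact ⟨by simp [hc], by simpa [hc] using a.L_mem q⟩
  · have h5 : dist c (m : ℂ) < ρ := by
      rw [hc, dr, abs_lt]
      constructor <;> (rw [hm, hρ]; linarith)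
    exact (hlim1.dist tendsto_const_nhds).eventually_lt_const h5
  · have h5 : ρ < dist c' (m : ℂ) := by
      rw [hc', dr, lt_abs]
      rcases h3 with h6 | h6
      · right; rw [hm, hρ]; linarith
      · left; rw [hm, hρ]; linarith
    exact (hlim2.dist tendsto_const_nhds).eventually_const_lt h5

end Pool.Agent.X283.BMG.Wt
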