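import Mathlib

set_option autoImplicit false

/-!
# Homogeneous quasimorphisms, amenability, and order automorphisms with bounded support
-/

noncomputable section

namespace Pool.Agent.X283.BMG

/-- `φ` is a homogeneous quasimorphism. -/
def IsHQM {H : Type} [Group H] (φ : H → ℝ) : Prop :=
  (∃ D : ℝ, ∀ g h : H, |φ (g * h) - φ g - φ h| ≤ D) ∧ ∀ (g : H) (n : ℤ), φ (g ^ n) = n * φ g

/-- A discrete group is amenable: it has a finitely additive left-invariant probability measure
defined on all subsets. -/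
def Amenable (G : Type) [Group G] : Prop :=
  ∃ m : Set G → ℝ, (∀ A, 0 ≤ m A) ∧ m Set.univ = 1 ∧
    (∀ A B, Disjoint A B → m (A ∪ B) = m A + m B) ∧
    ∀ (g : G) (A : Set G), m ((fun x => g * x) '' A) = m A

theorem eq_zero_of_mul_bdd {x D : ℝ} (h : ∀ n : ℕ, |(n : ℝ) * x| ≤ D) : x = 0 := by
  by_contra hx
  have hx' : 0 < |x| := abs_pos.2 hx
  obtain ⟨n, hn⟩ := exists_nat_gt (D / |x|)
  have h1 := h n
  rw [abs_mul, abs_of_nonneg (Nat.cast_nonneg n)] at h1
  rw [div_lt_iff₀ hx'] at hn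
  linarith

namespace IsHQM

variable {H : Type} [Group H] {φ : H → ℝ} (hφ : IsHQM φ)

include hφ

theorem pow (g : H) (n : ℕ) : φ (g ^ n) = n * φ g := by
  have := hφ.2 g n
  simpa using this

theorem inv (g : H) : φ g⁻¹ = - φ g := by
  have := hφ.2 g (-1)
  simpa using this

theorem one : φ 1 = 0 := by
  have := hφ.2 1 0
  simpa using this

theorem conj (t g : H) : φ (t * g * t⁻¹) = φ g := by
  obtain ⟨D, hD⟩ := hφ.1
  have key : ∀ n : ℕ, |(n : ℝ) * (φ (t * g * t⁻¹) - φ g)| ≤ 2 * D := by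
    intro n
    have h1 : φ ((t * g * t⁻¹) ^ n) = n * φ (t * g * t⁻¹) := hφ.pow _ n
    rw [conj_pow] at h1
    have h2 := hD (t * g ^ n) t⁻¹
    have h3 := hD t (g ^ n)
    rw [hφ.inv] at h2
    rw [hφ.pow] at h3
    rw [h1] at h2
    rw [abs_le] at h2 h3 ⊢
    constructor <;> nlinarith [h2.1, h2.2, h3.1, h3.2]
  have := eq_zero_of_mul_bdd key
  linarith

theorem comm {g h : H} (hc : g * h = h * g) : φ (g * h) = φ g + φ h := by
  obtain ⟨D, hD⟩ := hφ.1
  have key : ∀ n : ℕ, |(n : ℝ) * (φ (g * h) - φ g - φ h)| ≤ D := by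
    intro n
    have h1 : φ ((g * h) ^ n) = n * φ (g * h) := hφ.pow _ n
    rw [(show Commute g h from hc).mul_pow] at h1
    have h2 := hD (g ^ n) (h ^ n)
    rw [hφ.pow, hφ.pow, h1] at h2
    have h3 : (n : ℝ) * (φ (g * h) - φ g - φ h) = n * φ (g * h) - n * φ g - n * φ h := by ring
    rw [h3]
    exact h2
  have := eq_zero_of_mul_bdd key
  linarith

end IsHQM

/-- the product of the first `n` conjugates of `g` by powers of `t` -/
def cp {H : Type} [Group H] (t g : H) : ℕ → H
  | 0 => 1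
  | n + 1 => g * (t * cp t g n * t⁻¹)

section displace

variable {H : Type} [Group H] {t g h : H}

theorem cp_comm (x : H) (hx : ∀ i : ℕ, 1 ≤ i → Commute x (t ^ i * g * (t ^ i)⁻¹)) (n : ℕ) :
    ∀ j : ℕ, 1 ≤ j → Commute x (t ^ j * cp t g n * (t ^ j)⁻¹) := by
  induction n with
  | zero =>
    intro j _
    simp only [cp, mul_one, mul_inv_cancel]
    exact Commute.one_right x
  | succ n ih =>
    intro j hj
    have h1 : t ^ j * cp t g (n + 1) * (t ^ j)⁻¹ =
        (t ^ j * g * (t ^ j)⁻¹) * (t ^ (j + 1) * cp t g n * (t ^ (j + 1))⁻¹) := by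
      simp only [cp]
      rw [pow_succ]
      group
    rw [h1]
    exact (hx j hj).mul_right (ih (j + 1) (by omega))

theorem cp_comm' (x : H) (hx : ∀ i : ℕ, 1 ≤ i → Commute x (t ^ i * g * (t ^ i)⁻¹)) (n : ℕ) :
    Commute x (t * cp t g n * t⁻¹) := by
  have := cp_comm x hx n 1 le_rfl
  simpa using this

/-- A homogeneous quasimorphism is additive on two elements which can be displaced infinitely
often. -/
theorem hom_of_displace {φ : H → ℝ} (hφ : IsHQM φ)
    (hg : ∀ i : ℕ, 1 ≤ i → Commute g (t ^ i * g * (t ^ i)⁻¹) ∧ Commute g (t ^ i * h * (t ^ i)⁻¹))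
    (hh : ∀ i : ℕ, 1 ≤ i → Commute h (t ^ i * g * (t ^ i)⁻¹) ∧ Commute h (t ^ i * h * (t ^ i)⁻¹)) :
    φ (g * h) = φ g + φ h := by
  have gg := fun n => cp_comm' g (fun i hi => (hg i hi).1) n
  have gh := fun n => cp_comm' g (fun i hi => (hg i hi).2) n
  have hg' := fun n => cp_comm' h (fun i hi => (hh i hi).1) n
  have hh' := fun n => cp_comm' h (fun i hi => (hh i hi).2) n
  have hmul : ∀ n, cp t (g * h) n = cp t g n * cp t h n := by
    intro n
    induction n with
    | zero => simp [cp]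
    | succ n ih =>
      simp only [cp]
      rw [ih]
      have h1 : t * (cp t g n * cp t h n) * t⁻¹ = (t * cp t g n * t⁻¹) * (t * cp t h n * t⁻¹) := by
        group
      rw [h1]
      calc g * h * ((t * cp t g n * t⁻¹) * (t * cp t h n * t⁻¹))
          = g * (h * (t * cp t g n * t⁻¹)) * (t * cp t h n * t⁻¹) := by simp only [mul_assoc]
        _ = g * ((t * cp t g n * t⁻¹) * h) * (t * cp t h n * t⁻¹) := by rw [(hg' n).eq]
        _ = _ := by simp only [mul_assoc]
  have hval : ∀ x : H, (∀ n, Commute x (t * cp t x n * t⁻¹)) → ∀ n : ℕ, φ (cp t x n) = n * φ x := by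
    intro x hx n
    induction n with
    | zero => simp [cp, hφ.one]
    | succ n ih =>
      simp only [cp]
      rw [hφ.comm (hx n).eq, hφ.conj, ih]
      push_cast
      ring
  obtain ⟨D, hD⟩ := hφ.1
  have key : ∀ n : ℕ, |(n : ℝ) * (φ (g * h) - φ g - φ h)| ≤ D := by
    intro n
    have h1 := hD (cp t g n) (cp t h n)
    rw [← hmul, hval g gg, hval h hh', hval (g * h)] at h1
    · have h3 : (n : ℝ) * (φ (g * h) - φ g - φ h) = n * φ (g * h) - n * φ g - n * φ h := by ring
      rw [h3]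
      exact h1
    · intro k
      rw [hmul]
      have h2 : t * (cp t g k * cp t h k) * t⁻¹ = (t * cp t g k * t⁻¹) * (t * cp t h k * t⁻¹) := by
        group
      rw [h2]
      exact ((gg k).mul_right (gh k)).mul_left ((hg' k).mul_right (hh' k))
  have := eq_zero_of_mul_bdd key
  linarith

end displace

/-! ### Amenability and ping-pong -/

theorem Amenable.congr {G H : Type} [Group G] [Group H] (e : G ≃* H) (hG : Amenable G) :
    Amenable H := by
  obtain ⟨m, h0, h1, h2, h3⟩ := hG
  refine ⟨fun A => m (e ⁻¹' A), fun A => h0 _, by simpa using h1, fun A B h => ?_, fun g A => ?_⟩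
  · show m (e ⁻¹' (A ∪ B)) = _
    rw [Set.preimage_union]
    exact h2 _ _ (h.preimage e)
  · have : e ⁻¹' ((fun x => g * x) '' A) = (fun x => e.symm g * x) '' (e ⁻¹' A) := by
      ext x
      constructor
      · rintro ⟨y, hy, hyx⟩
        refine ⟨e.symm y, by simpa using hy, ?_⟩
        simp only at hyx ⊢
        rw [← map_mul, hyx, MulEquiv.symm_apply_apply]
      · rintro ⟨y, hy, rfl⟩
        exact ⟨e y, hy, by simp⟩
    show m (e ⁻¹' ((fun x => g * x) '' A)) = m (e ⁻¹' A)
    rw [this, h3]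

/-- A group with a homomorphism `ι` from `P` is not amenable if `P` acts on a set with two elements
playing ping-pong. -/
theorem not_amenable_of_pingpong {G P Ω : Type} [Group G] [Group P] [MulAction P Ω] [Nonempty Ω]
    (ι : P →* G) (hι : Function.Injective ι) (a b : P) (X Y Z W : Set Ω)
    (ha : ∀ x, x ∉ Y → a • x ∈ X) (hb : ∀ x, x ∉ W → b • x ∈ Z)
    (h1 : Disjoint X Y) (h2 : Disjoint (X ∪ Y) Z) (h3 : Disjoint (X ∪ Y ∪ Z) W) :
    ¬ Amenable G := by
  rintro ⟨m, m0, m1, madd, minv⟩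
  obtain ⟨x0⟩ := ‹Nonempty Ω›
  -- an equivariant map `G → P`
  obtain ⟨π, hπ⟩ : ∃ π : G → P, ∀ (p : P) (g : G), π (ι p * g) = p * π g := by
    let s : Setoid G :=
      { r := fun x y => ∃ p, ι p * x = y
        iseqv :=
          { refl := fun x => ⟨1, by simp⟩
            symm := by
              rintro x y ⟨p, rfl⟩
              exact ⟨p⁻¹, by simp⟩
            trans := by
              rintro x y z ⟨p, rfl⟩ ⟨q, rfl⟩
              exact ⟨q * p, by simp [mul_assoc]⟩ } }
    let r : G → G := fun g => (Quotient.mk s g).out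
    have hr : ∀ g, ∃ p, ι p * r g = g := fun g => Quotient.exact (Quotient.out_eq (Quotient.mk s g))
    have hr' : ∀ (p : P) (g : G), r (ι p * g) = r g := by
      intro p g
      have : Quotient.mk s (ι p * g) = Quotient.mk s g := Quotient.sound ⟨p⁻¹, by simp⟩
      show (Quotient.mk s (ι p * g)).out = (Quotient.mk s g).out
      rw [this]
    choose π hπ using hr
    refine ⟨π, fun p g => hι ?_⟩
    have e1 := hπ (ι p * g)
    rw [hr'] at e1
    have e2 := hπ g
    rw [map_mul]
    apply mul_right_cancel (b := r g)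
    rw [e1, mul_assoc, e2]
  -- the invariant mean on `Ω`
  let μ : Set Ω → ℝ := fun E => m {g | π g • x0 ∈ E}
  have μinv : ∀ (p : P) (E : Set Ω), μ {x | p • x ∈ E} = μ E := by
    intro p E
    show m {g | p • (π g • x0) ∈ E} = m {g | π g • x0 ∈ E}
    rw [← minv (ι p) {g | p • (π g • x0) ∈ E}]
    congr 1
    ext g
    constructor
    · rintro ⟨y, hy, rfl⟩
      show π (ι p * y) • x0 ∈ E
      rw [hπ, mul_smul]
      exact hy
    · intro hg
      refine ⟨ι p⁻¹ * g, ?_, by simp⟩
      show p • (π (ι p⁻¹ * g) • x0) ∈ E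
      rw [hπ, ← mul_smul, mul_inv_cancel_left]
      exact hg
  have μadd : ∀ A B, Disjoint A B → μ (A ∪ B) = μ A + μ B := by
    intro A B h
    show m _ = m _ + m _
    rw [← madd]
    · rfl
    · rw [Set.disjoint_left] at h ⊢
      exact fun g h1 h2 => h h1 h2
  have μ1 : μ Set.univ = 1 := by
    show m {g | π g • x0 ∈ Set.univ} = 1
    simpa using m1
  have μmono : ∀ A B, A ⊆ B → μ A ≤ μ B := by
    intro A B h
    have e : B = A ∪ (B \ A) := (Set.union_sdiff_cancel h).symm
    rw [e, μadd _ _ disjoint_sdiff_self_right]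
    have : 0 ≤ μ (B \ A) := m0 _
    linarith
  have μcompl : ∀ A, μ Aᶜ = 1 - μ A := by
    intro A
    have := μadd A Aᶜ disjoint_compl_right
    rw [Set.union_compl_self, μ1] at this
    linarith
  have k1 : 1 - μ Y ≤ μ X := by
    rw [← μcompl, ← μinv a X]
    exact μmono _ _ fun x hx => ha x hx
  have k2 : 1 - μ W ≤ μ Z := by
    rw [← μcompl, ← μinv b Z]
    exact μmono _ _ fun x hx => hb x hx
  have k3 : μ (X ∪ Y ∪ Z ∪ W) = μ X + μ Y + μ Z + μ W := by
    rw [μadd _ _ h3, μadd _ _ h2, μadd _ _ h1]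
  have k4 : μ (X ∪ Y ∪ Z ∪ W) ≤ 1 := by
    rw [← μ1]
    exact μmono _ _ (Set.subset_univ _)
  linarith

end Pool.Agent.X283.BMG
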