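import Pool.Agent.X283.BMG.Grp

set_option autoImplicit false

/-!
# The mapping class group of the plane minus a Cantor set
-/

noncomputable section

open Filter Topology Complex

namespace Pool.Agent.X283.BMG

/-- `C` is a Cantor set in the plane: nonempty, compact, totally disconnected, without isolated
points. -/
structure IsCantorSet (C : Set ℂ) : Prop where
  nonempty : C.Nonempty
  compact : IsCompact C
  perfect : ∀ x ∈ C, ∀ ε : ℝ, 0 < ε → ∃ y ∈ C, y ≠ x ∧ dist y x < ε
  totDisc : IsTotallyDisconnected C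

/-- The surface `ℝ² - C`. -/
abbrev Surf (C : Set ℂ) : Type := ↥(Cᶜ : Set ℂ)

/-- The subspace topology of `ℝ² - C`. -/
instance surfTop (C : Set ℂ) : TopologicalSpace (Surf C) := instTopologicalSpaceSubtype

/-- The homeomorphism `h` of `ℝ² - C` is isotopic to the identity: there is a homeomorphism of
`(ℝ² - C) × [0, 1]` preserving the second coordinate, which is the identity at time `0` and `h` at
time `1`. -/
def IsotopicToId {C : Set ℂ} (h : Surf C ≃ₜ Surf C) : Prop :=
  ∃ Φ : (Surf C × unitInterval) ≃ₜ (Surf C × unitInterval),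
    (∀ p, (Φ p).2 = p.2) ∧ (∀ z, Φ (z, 0) = (z, 0)) ∧ ∀ z, Φ (z, 1) = (h z, 1)

theorem IsotopicToId.mul {C : Set ℂ} {g h : Surf C ≃ₜ Surf C} (hg : IsotopicToId g)
    (hh : IsotopicToId h) : IsotopicToId (g * h) := by
  obtain ⟨Φ, h1, h2, h3⟩ := hg
  obtain ⟨Ψ, k1, k2, k3⟩ := hh
  refine ⟨Ψ.trans Φ, fun p => ?_, fun z => ?_, fun z => ?_⟩
  · show (Φ (Ψ p)).2 = p.2
    rw [h1, k1]
  · show Φ (Ψ (z, 0)) = (z, 0)
    rw [k2, h2]
  · show Φ (Ψ (z, 1)) = (g (h z), 1)
    rw [k3, h3]

theorem IsotopicToId.one (C : Set ℂ) : IsotopicToId (1 : Surf C ≃ₜ Surf C) :=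
  ⟨Homeomorph.refl _, fun _ => rfl, fun _ => rfl, fun _ => rfl⟩

theorem IsotopicToId.inv {C : Set ℂ} {h : Surf C ≃ₜ Surf C} (hh : IsotopicToId h) :
    IsotopicToId h⁻¹ := by
  obtain ⟨Φ, h1, h2, h3⟩ := hh
  refine ⟨Φ.symm, fun p => ?_, fun z => ?_, fun z => ?_⟩
  · have := h1 (Φ.symm p)
    rw [Φ.apply_symm_apply] at this
    exact this.symm
  · rw [Φ.symm_apply_eq, h2]
  · rw [Φ.symm_apply_eq]
    show (z, 1) = Φ (h.symm z, 1)
    rw [h3, h.apply_symm_apply]

/-- The group `Homeo₀(ℝ² - C)` of homeomorphisms isotopic to the identity. -/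
def Homeo0 (C : Set ℂ) : Subgroup (Surf C ≃ₜ Surf C) where
  carrier := {h | IsotopicToId h}
  mul_mem' := IsotopicToId.mul
  one_mem' := IsotopicToId.one C
  inv_mem' := IsotopicToId.inv

instance (C : Set ℂ) : (Homeo0 C).Normal := by
  refine ⟨?_⟩
  rintro h ⟨Φ, h1, h2, h3⟩ g
  refine ⟨((g.prodCongr (Homeomorph.refl unitInterval)).symm.trans Φ).trans
    (g.prodCongr (Homeomorph.refl unitInterval)), fun p => ?_, fun z => ?_, fun z => ?_⟩
  · show (Φ (g.symm p.1, p.2)).2 = p.2
    rw [h1]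
  · show (g (Φ (g.symm z, 0)).1, (Φ (g.symm z, 0)).2) = (z, 0)
    rw [h2]
    simp
  · show (g (Φ (g.symm z, 1)).1, (Φ (g.symm z, 1)).2) = ((g * h * g⁻¹) z, 1)
    rw [h3]
    rfl

/-- The extended mapping class group `Homeo(ℝ² - C) / Homeo₀(ℝ² - C)`. -/
abbrev ExtMap (C : Set ℂ) : Type := (Surf C ≃ₜ Surf C) ⧸ Homeo0 C

/-- The group structure of the quotient. -/
instance extGroup (C : Set ℂ) : Group (ExtMap C) := QuotientGroup.Quotient.group _

/-- The mapping class of a homeomorphism. -/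
def cls {C : Set ℂ} (h : Surf C ≃ₜ Surf C) : ExtMap C := QuotientGroup.mk h

/-- The homeomorphism `h` of `ℝ² - C` preserves the orientation: for every point `z`, the image of a
small positively oriented circle around `z` winds once in the positive sense around `h z`. -/
def OrientationPreserving {C : Set ℂ} (h : Surf C ≃ₜ Surf C) : Prop :=
  ∀ z : Surf C, ∃ r₀ : ℝ, 0 < r₀ ∧ ∀ r : ℝ, 0 < r → r < r₀ →
    ∃ θ : ℝ → ℝ, Continuous θ ∧ (∀ t, θ (t + 2 * Real.pi) = θ t + 2 * Real.pi) ∧
      ∀ t : ℝ, ∃ w : Surf C, (w : ℂ) = z + r * exp (t * I) ∧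
        ((h w : ℂ) - h z) = (‖(h w : ℂ) - h z‖ : ℂ) * exp (θ t * I)

/-- The mapping class group `Map(ℝ² - C)`: the subgroup of the extended mapping class group
generated by the classes of orientation preserving homeomorphisms. -/
def MapGroup (C : Set ℂ) : Subgroup (ExtMap C) :=
  Subgroup.closure {x | ∃ h : Surf C ≃ₜ Surf C, OrientationPreserving h ∧ cls h = x}

/-! ### Isotopies act trivially on the ends -/

/-- Let `C` be disjoint from the circle with centre `m` and radius `ρ`.  If `h` is isotopic to the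
identity, then it does not move points converging to a point `c` of `C` inside the circle to points
outside of the circle. -/
theorem no_crossing {C : Set ℂ} {h : Surf C ≃ₜ Surf C} (hh : IsotopicToId h) {m : ℂ} {ρ : ℝ}
    (hC : ∀ z ∈ C, dist z m ≠ ρ) {c : ℂ} (hc : c ∈ C) {x : ℕ → Surf C}
    (hx : Tendsto (fun n => (x n : ℂ)) atTop (𝓝 c)) (hin : ∀ᶠ n in atTop, dist (x n : ℂ) m < ρ)
    (hout : ∀ᶠ n in atTop, ρ < dist (h (x n) : ℂ) m) : False := by
  obtain ⟨Φ, h1, h2, h3⟩ := hh
  -- the compact circle in the surface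
  set γ : Set (Surf C) := {z | dist (z : ℂ) m = ρ} with hγ
  have hγc : IsCompact γ := by
    rw [Subtype.isCompact_iff]
    have : Subtype.val '' γ = Metric.sphere m ρ := by
      ext z
      constructor
      · rintro ⟨w, hw, rfl⟩
        exact hw
      · intro hz
        exact ⟨⟨z, fun hzC => hC z hzC hz⟩, hz, rfl⟩
    rw [this]
    exact isCompact_sphere m ρ
  set E : Set ℂ := (fun p : Surf C × unitInterval => (p.1 : ℂ)) '' (Φ.symm '' (γ ×ˢ Set.univ)) with hE
  have hEc : IsClosed E := by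
    refine IsCompact.isClosed ?_
    refine (((hγc.prod isCompact_univ).image Φ.symm.continuous)).image ?_
    exact continuous_subtype_val.comp continuous_fst
  have hxE : ∀ᶠ n in atTop, (x n : ℂ) ∈ E := by
    filter_upwards [hin, hout] with n hn1 hn2
    set g : unitInterval → ℝ := fun t => dist ((Φ (x n, t)).1 : ℂ) m with hg
    have hgc : Continuous g := by
      have e1 : Continuous fun t : unitInterval => ((Φ (x n, t)).1 : ℂ) :=
        continuous_subtype_val.comp (continuous_fst.comp (Φ.continuous.comp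
          (continuous_const.prodMk continuous_id)))
      exact e1.dist continuous_const
    have g0 : g 0 < ρ := by
      simp only [hg, h2]
      exact hn1
    have g1 : ρ < g 1 := by
      simp only [hg, h3]
      exact hn2
    obtain ⟨t, -, ht⟩ := (isPreconnected_univ (α := unitInterval)).intermediate_value
      (Set.mem_univ 0) (Set.mem_univ 1) hgc.continuousOn ⟨g0.le, g1.le⟩
    refine ⟨(x n, t), ⟨Φ (x n, t), ⟨ht, Set.mem_univ _⟩, Φ.symm_apply_apply _⟩, rfl⟩
  have hcE : c ∈ E := hEc.mem_of_tendsto hx hxE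
  obtain ⟨p, -, hp⟩ := hcE
  have hp' : (p.1 : ℂ) = c := hp
  exact p.1.2 (by rw [hp']; exact hc)

end Pool.Agent.X283.BMG
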